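import Pool.Agent.Run7.h611.EhrG.Poly

/-!
# The action of the group on its polytope
-/

open scoped Pointwise

set_option linter.unusedSectionVars false

noncomputable section

namespace Run7.h611.EhrG

variable {G : Type} [Group G] [Fintype G] [DecidableEq G] {n : ℕ}

theorem vert_zero : (vert (Sum.inr (some none)) : G ⊕ JJ n → ℝ) = 0 := by
  ext i
  simp [vert, vertZ]

theorem fullDim_Pol (hn : Fintype.card G = n) (h2 : 2 ≤ n) : affineSpan ℝ (Pol G n) = ⊤ := by
  have hn0 : (n : ℝ) ≠ 0 := by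
    have : 0 < n := by omega
    exact_mod_cast this.ne'
  have h0 : (0 : G ⊕ JJ n → ℝ) ∈ Pol G n := by
    have := vert_mem hn h2 (Sum.inr (some none) : VI G n)
    rwa [vert_zero] at this
  rw [AffineSubspace.affineSpan_eq_top_iff_vectorSpan_eq_top_of_nonempty ℝ _ _ ⟨0, h0⟩]
  have hv : ∀ k : VI G n, vert k ∈ vectorSpan ℝ (Pol G n) := fun k => by
    have := vsub_mem_vectorSpan ℝ (vert_mem hn h2 k) h0
    simpa using this
  rw [eq_top_iff]
  intro p _
  have hp : p = ∑ x : G, (wC p / n + uC p x) • vert (n := n) (Sum.inl (x, false)) +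
      (wC p / n) • vert (Sum.inr none) +
      ∑ e : Fin (n ^ 2 - 2), (wC p / n + vC p e) • vert (Sum.inr (some (some e))) +
      yC p • (vert (Sum.inl (1, true)) - vert (Sum.inl (1, false))) := by
    ext i
    simp only [Pi.add_apply, Finset.sum_apply, Pi.smul_apply, Pi.sub_apply, smul_eq_mul]
    rcases i with x | _ | _ | e
    · simp only [vert, vertZ]
      simp [uC]
    · simp only [vert, vertZ]
      simp [wC]
      field_simp
    · simp only [vert, vertZ]
      simp [yC]
    · simp only [vert, vertZ]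
      simp [vC]
  rw [hp]
  refine add_mem (add_mem (add_mem (Submodule.sum_mem _ fun x _ => ?_) ?_)
    (Submodule.sum_mem _ fun e _ => ?_)) ?_
  · exact Submodule.smul_mem _ _ (hv _)
  · exact Submodule.smul_mem _ _ (hv _)
  · exact Submodule.smul_mem _ _ (hv _)
  · exact Submodule.smul_mem _ _ (sub_mem (hv _) (hv _))

variable (n) in
/-- The permutation of the coordinates given by `g`. -/
def sigma (g : G) : Equiv.Perm (G ⊕ JJ n) := Equiv.sumCongr (Equiv.mulRight g) (Equiv.refl _)

theorem sigma_inl (g x : G) : sigma n g (Sum.inl x) = Sum.inl (x * g) := rfl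

theorem sigma_inr (g : G) (j : JJ n) : sigma n g (Sum.inr j) = Sum.inr j := rfl

variable (n) in
/-- The linear automorphism given by `g`. -/
def linAct (g : G) : (G ⊕ JJ n → ℝ) ≃ₗ[ℝ] (G ⊕ JJ n → ℝ) :=
  LinearEquiv.funCongrLeft ℝ ℝ (sigma n g)

theorem linAct_apply (g : G) (p : G ⊕ JJ n → ℝ) : linAct n g p = fun i => p (sigma n g i) := rfl

theorem linAct_one : linAct n (1 : G) = 1 := by
  ext p i
  rcases i with x | j
  · change p (Sum.inl (x * 1)) = p (Sum.inl x)
    rw [mul_one]
  · rfl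

theorem linAct_mul (g h : G) : linAct n (g * h) = linAct n g * linAct n h := by
  ext p i
  rcases i with x | j
  · change p (Sum.inl (x * (g * h))) = p (Sum.inl (x * g * h))
    rw [mul_assoc]
  · rfl

variable (G n) in
/-- The action. -/
def actHom : G →* ((G ⊕ JJ n → ℝ) ≃ᵃ[ℝ] (G ⊕ JJ n → ℝ)) where
  toFun g := (linAct n g).toAffineEquiv
  map_one' := by
    rw [linAct_one]
    rfl
  map_mul' g h := by
    rw [linAct_mul]
    rfl

theorem actHom_apply (g : G) (p : G ⊕ JJ n → ℝ) : actHom G n g p = fun i => p (sigma n g i) := rfl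

theorem act_lattice' (g : G) (p : G ⊕ JJ n → ℝ) (hp : p ∈ lattice (G ⊕ JJ n)) :
    actHom G n g p ∈ lattice (G ⊕ JJ n) := by
  obtain ⟨z, rfl⟩ := hp
  exact ⟨fun i => z (sigma n g i), rfl⟩

theorem sum_uC_act (g : G) (p : G ⊕ JJ n → ℝ) :
    ∑ x, uC (actHom G n g p) x = ∑ x, uC p x := by
  change ∑ x, p (Sum.inl (x * g)) = ∑ x, p (Sum.inl x)
  exact Equiv.sum_comp (Equiv.mulRight g) fun x => p (Sum.inl x)

theorem ineq_act {m : ℝ} (g : G) (p : G ⊕ JJ n → ℝ) (hp : Ineq m p) :
    Ineq m (actHom G n g p) := by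
  obtain ⟨h1, h2, h3, h4, h5, h6⟩ := hp
  refine ⟨h1, fun x => h2 (x * g), h3, ?_, h5, ?_⟩
  · rw [sum_uC_act]
    exact h4
  · rw [sum_uC_act]
    exact h6

theorem image_act (g : G) {S : Set (G ⊕ JJ n → ℝ)}
    (h : ∀ g : G, ∀ p ∈ S, actHom G n g p ∈ S) : actHom G n g '' S = S := by
  apply Set.Subset.antisymm
  · rintro _ ⟨p, hp, rfl⟩
    exact h g p hp
  · intro p hp
    refine ⟨actHom G n g⁻¹ p, h g⁻¹ p hp, ?_⟩
    have : (actHom G n g * actHom G n g⁻¹) p = p := by
      rw [← map_mul, mul_inv_cancel, map_one]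
      rfl
    exact this

theorem actHom_injective : Function.Injective (actHom G n) := by
  intro g h hgh
  have h1 := DFunLike.congr_fun hgh (fun i => if i = Sum.inl g then 1 else 0)
  have h2 := congrFun h1 (Sum.inl 1)
  change (if (Sum.inl (1 * g) : G ⊕ JJ n) = Sum.inl g then (1 : ℝ) else 0) =
    (if (Sum.inl (1 * h) : G ⊕ JJ n) = Sum.inl g then (1 : ℝ) else 0) at h2
  rw [one_mul, one_mul, if_pos rfl] at h2
  by_contra hne
  rw [if_neg (fun h => hne (Sum.inl_injective h).symm)] at h2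
  exact one_ne_zero h2

variable (G n) in
/-- The polytope of the group `G`. -/
def AG (hn : Fintype.card G = n) (h2 : 2 ≤ n) : InvariantPolytope G (G ⊕ JJ n) where
  P := Pol G n
  polytope := by
    refine ⟨Set.range vert, Set.finite_range _, ?_, Pol_eq hn h2⟩
    rintro _ ⟨k, rfl⟩
    exact ⟨vertZ k, rfl⟩
  fullDim := fullDim_Pol hn h2
  act := actHom G n
  act_lattice g := image_act g act_lattice'
  act_polytope g := image_act g ineq_act

end Run7.h611.EhrG
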