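import Pool.Agent.Run7.h611.EhrG.Det

/-!
# Counting the fixed lattice points
-/

open scoped Pointwise

set_option linter.unusedSectionVars false

noncomputable section

namespace Run7.h611.EhrG

open Finset

section gf
variable {α β : Type}

/-- The generating function of a graded family. -/
def gf (P : ℕ → Finset α) : PowerSeries ℝ := PowerSeries.mk fun j => ((P j).card : ℝ)

/-- Pairs of an element of degree `i` and an element of degree `j`, with `i + j = m`. -/
def conv (P : ℕ → Finset α) (R : ℕ → Finset β) (m : ℕ) : Finset (Σ _ : ℕ × ℕ, α × β) :=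
  (antidiagonal m).sigma fun p => P p.1 ×ˢ R p.2

theorem gf_conv (P : ℕ → Finset α) (R : ℕ → Finset β) : gf (conv P R) = gf P * gf R := by
  ext m
  rw [gf, PowerSeries.coeff_mk, PowerSeries.coeff_mul, conv, Finset.card_sigma]
  simp [gf, Finset.card_product]

theorem mem_conv {P : ℕ → Finset α} {R : ℕ → Finset β} {m i j : ℕ} {a : α} {b : β} :
    (⟨(i, j), (a, b)⟩ : Σ _ : ℕ × ℕ, α × β) ∈ conv P R m ↔ i + j = m ∧ a ∈ P i ∧ b ∈ R j := by
  simp [conv]

variable (α) in
/-- The functions with sum `j`. -/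
def FB [Fintype α] [DecidableEq α] (j : ℕ) : Finset (α →₀ ℕ) := finsuppAntidiag univ j

variable (α) in
/-- The functions with sum `j` whose values are divisible by `o`. -/
def FA [Fintype α] [DecidableEq α] (o j : ℕ) : Finset (α →₀ ℕ) :=
  (finsuppAntidiag univ j).filter fun l => ∀ q, o ∣ l q

theorem mem_FB [Fintype α] [DecidableEq α] {j : ℕ} {b : α →₀ ℕ} :
    b ∈ FB α j ↔ ∑ q, b q = j := by
  simp [FB]

theorem mem_FA [Fintype α] [DecidableEq α] {o j : ℕ} {b : α →₀ ℕ} :
    b ∈ FA α o j ↔ ∑ q, b q = j ∧ ∀ q, o ∣ b q := by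
  simp [FA]

theorem gf_FB [Fintype α] [DecidableEq α] :
    gf (FB α) = (PowerSeries.mk 1 : PowerSeries ℝ) ^ Fintype.card α := by
  rw [← Finset.card_univ, ← Finset.prod_const]
  ext j
  rw [PowerSeries.coeff_prod, gf, PowerSeries.coeff_mk, FB]
  simp

/-- The indicator series of the multiples of `o`. -/
def SS (o : ℕ) : PowerSeries ℝ := PowerSeries.mk fun i => if o ∣ i then 1 else 0

theorem gf_FA [Fintype α] [DecidableEq α] (o : ℕ) :
    gf (FA α o) = SS o ^ Fintype.card α := by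
  rw [← Finset.card_univ, ← Finset.prod_const]
  ext j
  rw [PowerSeries.coeff_prod, gf, PowerSeries.coeff_mk, FA, Finset.card_filter]
  push_cast
  refine Finset.sum_congr rfl fun l _ => ?_
  simp only [SS, PowerSeries.coeff_mk]
  rw [Finset.prod_boole]
  simp

end gf

variable {G : Type} [Group G] [Fintype G] [DecidableEq G] {n : ℕ}

/-- Functions on the cosets, together with a number. -/
def FY (g : G) (k j : ℕ) : Finset ((Qt g →₀ ℕ) × ℕ) := FA (Qt g) (orderOf g) j ×ˢ range (k + j + 1)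

/-- The parameters of the fixed lattice points of `mP`. -/
def Par (n : ℕ) (g : G) (m : ℕ) :
    Finset (Σ _ : ℕ, Σ _ : ℕ × ℕ, ((Qt g →₀ ℕ) × ℕ) × (JJ n →₀ ℕ)) :=
  (range n).sigma fun k => if (n + 1) * k ≤ m then conv (FY g k) (FB (JJ n)) (m - (n + 1) * k)
    else ∅

theorem mem_Par {g : G} {m k i j y : ℕ} {l : Qt g →₀ ℕ} {b : JJ n →₀ ℕ} :
    (⟨k, ⟨(i, j), ((l, y), b)⟩⟩ :
      Σ _ : ℕ, Σ _ : ℕ × ℕ, ((Qt g →₀ ℕ) × ℕ) × (JJ n →₀ ℕ)) ∈ Par n g m ↔
    k < n ∧ (n + 1) * k + i + j = m ∧ ∑ q, l q = i ∧ (∀ q, orderOf g ∣ l q) ∧ y < k + i + 1 ∧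
      b none + b (some none) + ∑ e, b (some (some e)) = j := by
  have hb : ∑ q, b q = b none + b (some none) + ∑ e, b (some (some e)) := by
    rw [Fintype.sum_option, Fintype.sum_option, add_assoc]
  simp only [Par, Finset.mem_sigma, Finset.mem_range]
  constructor
  · rintro ⟨hk, h⟩
    split_ifs at h with hle
    · rw [mem_conv] at h
      obtain ⟨h1, h2, h3⟩ := h
      rw [FY, Finset.mem_product, mem_FA, Finset.mem_range] at h2
      rw [mem_FB, hb] at h3
      exact ⟨hk, by omega, h2.1.1, h2.1.2, h2.2, h3⟩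
    · simp at h
  · rintro ⟨hk, h1, h2, h3, h4, h5⟩
    refine ⟨hk, ?_⟩
    rw [if_pos (by omega), mem_conv, FY, Finset.mem_product, mem_FA, Finset.mem_range, mem_FB, hb]
    exact ⟨by omega, ⟨⟨h2, h3⟩, h4⟩, h5⟩

/-- The lattice point with given parameters. -/
def phi (n : ℕ) (g : G) (t : Σ _ : ℕ, Σ _ : ℕ × ℕ, ((Qt g →₀ ℕ) × ℕ) × (JJ n →₀ ℕ)) :
    G ⊕ JJ n → ℤ := fun i => match i with
  | Sum.inl x => ((t.2.2.1.1 (QuotientGroup.mk x) / orderOf g : ℕ) : ℤ) - t.2.2.2 none
  | Sum.inr none => n * t.2.2.2 none + t.1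
  | Sum.inr (some none) => t.2.2.1.2
  | Sum.inr (some (some e)) => (t.2.2.2 (some (some e)) : ℤ) - t.2.2.2 none

/-- The inequalities for integer vectors. -/
def IneqZ (m : ℕ) (z : G ⊕ JJ n → ℤ) : Prop :=
  0 ≤ z (Sum.inr none) ∧ (∀ x, 0 ≤ z (Sum.inr none) + n * z (Sum.inl x)) ∧
  (∀ e, 0 ≤ z (Sum.inr none) + n * z (Sum.inr (some (some e)))) ∧
  0 ≤ z (Sum.inr none) + n * (m - ((n + 1) * z (Sum.inr none) + ∑ x, z (Sum.inl x) +
    ∑ e, z (Sum.inr (some (some e))))) ∧
  0 ≤ z (Sum.inr (some none)) ∧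
  z (Sum.inr (some none)) ≤ z (Sum.inr none) + ∑ x, z (Sum.inl x)

/-- The embedding of `ℤ^ι` in `ℝ^ι`. -/
def emb {ι : Type} (z : ι → ℤ) (i : ι) : ℝ := (z i : ℝ)

theorem emb_injective {ι : Type} : Function.Injective (emb (ι := ι)) := by
  intro a b h
  ext i
  have := congrFun h i
  simpa [emb] using this

theorem ineq_iff (m : ℕ) (z : G ⊕ JJ n → ℤ) : Ineq m (emb z) ↔ IneqZ m z := by
  unfold Ineq IneqZ
  simp only [wC, yC, uC, vC, emb]
  norm_cast

/-- The sum over the group of a function on the cosets. -/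
theorem sum_coset (g : G) (f : Qt g → ℕ) :
    ∑ x : G, f (QuotientGroup.mk x) = orderOf g * ∑ q, f q := by
  rw [← Equiv.sum_comp (parE g), Fintype.sum_prod_type]
  have : ∀ (i : Fin (orderOf g)) (q : Qt g), f (QuotientGroup.mk (parE g (i, q))) = f q := by
    intro i q
    congr 1
    exact mk_par g (i, q)
  simp only [this, Finset.sum_const, Finset.card_univ, Fintype.card_fin, smul_eq_mul]

theorem phi_mem (hn : Fintype.card G = n) (h2 : 2 ≤ n) (g : G) (m : ℕ)
    (t : Σ _ : ℕ, Σ _ : ℕ × ℕ, ((Qt g →₀ ℕ) × ℕ) × (JJ n →₀ ℕ)) (ht : t ∈ Par n g m) :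
    IneqZ m (phi n g t) ∧ ∀ i, phi n g t (sigma n g i) = phi n g t i := by
  obtain ⟨k, ⟨i, j⟩, ⟨l, y⟩, b⟩ := t
  rw [mem_Par] at ht
  obtain ⟨hk, h1, h3, h4, h5, h6⟩ := ht
  have hsq : ((n ^ 2 - 2 : ℕ) : ℤ) = (n : ℤ) ^ 2 - 2 := by
    have : 2 ≤ n ^ 2 := by nlinarith
    push_cast [this]
    ring
  have hsu : ∑ x : G, phi n g ⟨k, ⟨(i, j), ((l, y), b)⟩⟩ (Sum.inl x) =
      (i : ℤ) - n * b none := by
    have e1 : ∑ x : G, l (QuotientGroup.mk x) / orderOf g = i := by
      rw [sum_coset g fun q => l q / orderOf g, Finset.mul_sum, ← h3]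
      refine Finset.sum_congr rfl fun q _ => ?_
      exact Nat.mul_div_cancel' (h4 q)
    simp only [phi, Finset.sum_sub_distrib, Finset.sum_const, Finset.card_univ, hn,
      nsmul_eq_mul]
    rw [← e1]
    push_cast
    rfl
  have hsv : ∑ e, phi n g ⟨k, ⟨(i, j), ((l, y), b)⟩⟩ (Sum.inr (some (some e))) =
      (∑ e, (b (some (some e)) : ℤ)) - ((n : ℤ) ^ 2 - 2) * b none := by
    simp only [phi, Finset.sum_sub_distrib, Finset.sum_const, Finset.card_univ,
      Fintype.card_fin, nsmul_eq_mul, hsq]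
  have h6' : (b none : ℤ) + b (some none) + ∑ e, (b (some (some e)) : ℤ) = j := by
    exact_mod_cast h6
  have h1' : ((n : ℤ) + 1) * k + i + j = m := by exact_mod_cast h1
  refine ⟨⟨?_, fun x => ?_, fun e => ?_, ?_, ?_, ?_⟩, ?_⟩
  · simp only [phi]
    positivity
  · simp only [phi]
    have : (0 : ℤ) ≤ n * ((l (QuotientGroup.mk x) / orderOf g : ℕ) : ℤ) := by positivity
    have hk0 : (0 : ℤ) ≤ k := Int.natCast_nonneg k
    linarith
  · simp only [phi]
    have : (0 : ℤ) ≤ n * (b (some (some e)) : ℤ) := by positivity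
    have hk0 : (0 : ℤ) ≤ k := Int.natCast_nonneg k
    linarith
  · rw [hsu, hsv]
    simp only [phi]
    have e2 : (n : ℤ) * b none + k + n * (m - ((n + 1) * (n * b none + k) + (i - n * b none) +
        ((∑ e, (b (some (some e)) : ℤ)) - ((n : ℤ) ^ 2 - 2) * b none))) =
        k + n * (b (some none) : ℤ) := by
      rw [← h1', ← h6']
      ring
    rw [e2]
    positivity
  · simp only [phi]
    positivity
  · rw [hsu]
    simp only [phi]
    have : (y : ℤ) < k + i + 1 := by exact_mod_cast h5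
    linarith
  · rintro (x | a)
    · rw [sigma_inl]
      simp only [phi]
      have : (QuotientGroup.mk (x * g) : Qt g) = QuotientGroup.mk x :=
        QuotientGroup.mk_mul_of_mem _ (Subgroup.mem_zpowers g)
      rw [this]
    · rfl

theorem phi_injOn (h2 : 2 ≤ n) (g : G) (m : ℕ) :
    Set.InjOn (phi n g) (Par n g m : Set _) := by
  rintro ⟨k, ⟨i, j⟩, ⟨l, y⟩, b⟩ ht ⟨k', ⟨i', j'⟩, ⟨l', y'⟩, b'⟩ ht' h
  rw [Finset.mem_coe, mem_Par] at ht ht'
  obtain ⟨hk, h1, h3, h4, h5, h6⟩ := ht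
  obtain ⟨hk', h1', h3', h4', h5', h6'⟩ := ht'
  have hw := congrFun h (Sum.inr none)
  have hy := congrFun h (Sum.inr (some none))
  have hu : ∀ x : G, _ := fun x => congrFun h (Sum.inl x)
  have hv : ∀ e, _ := fun e => congrFun h (Sum.inr (some (some e)))
  simp only [phi] at hw hy hu hv
  have hw' : n * b none + k = n * b' none + k' := by exact_mod_cast hw
  have hb0 : b none = b' none := by
    have e1 : (n * b none + k) / n = b none := by
      rw [Nat.mul_add_div (by omega), Nat.div_eq_of_lt hk, add_zero]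
    have e2 : (n * b' none + k') / n = b' none := by
      rw [Nat.mul_add_div (by omega), Nat.div_eq_of_lt hk', add_zero]
    rw [← e1, hw', e2]
  have hkk : k = k' := by
    rw [hb0] at hw'
    omega
  subst hkk
  have hyy : y = y' := by exact_mod_cast hy
  subst hyy
  have hll : l = l' := by
    ext q
    obtain ⟨x, rfl⟩ := QuotientGroup.mk_surjective q
    have := hu x
    rw [hb0] at this
    have e0 : ((l (QuotientGroup.mk x) / orderOf g : ℕ) : ℤ) =
        ((l' (QuotientGroup.mk x) / orderOf g : ℕ) : ℤ) := by linarith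
    have e1 : l (QuotientGroup.mk x) / orderOf g = l' (QuotientGroup.mk x) / orderOf g :=
      Int.ofNat_inj.mp e0
    rw [← Nat.mul_div_cancel' (h4 (QuotientGroup.mk x)), e1,
      Nat.mul_div_cancel' (h4' (QuotientGroup.mk x))]
  subst hll
  have hii : i = i' := by rw [← h3, ← h3']
  subst hii
  have hjj : j = j' := by omega
  subst hjj
  have hbe : ∀ e, b (some (some e)) = b' (some (some e)) := by
    intro e
    have := hv e
    rw [hb0] at this
    have e0 : ((b (some (some e)) : ℕ) : ℤ) = ((b' (some (some e)) : ℕ) : ℤ) := by linarith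
    exact Int.ofNat_inj.mp e0
  have hb1 : b (some none) = b' (some none) := by
    simp only [hbe] at h6
    omega
  have hbb : b = b' := by
    ext q
    rcases q with _ | _ | e
    · exact hb0
    · exact hb1
    · exact hbe e
  subst hbb
  rfl

end Run7.h611.EhrG
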