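import Pool.Agent.Run7.h611.EhrG.Count

/-!
# Counting the fixed lattice points (continued)
-/

open scoped Pointwise

set_option linter.unusedSectionVars false

noncomputable section

namespace Run7.h611.EhrG

open Finset

variable {G : Type} [Group G] [Fintype G] [DecidableEq G] {n : ℕ}

theorem inv_pow {g : G} {z : G ⊕ JJ n → ℤ} (h : ∀ i, z (sigma n g i) = z i) (x : G) (i : ℕ) :
    z (Sum.inl (x * g ^ i)) = z (Sum.inl x) := by
  induction i with
  | zero => simp
  | succ i ih =>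
    rw [pow_succ, ← mul_assoc, ← ih]
    exact h (Sum.inl (x * g ^ i))

theorem inv_out {g : G} {z : G ⊕ JJ n → ℤ} (h : ∀ i, z (sigma n g i) = z i) (x : G) :
    z (Sum.inl (QuotientGroup.mk x : Qt g).out) = z (Sum.inl x) := by
  obtain ⟨⟨i, q⟩, rfl⟩ := (parE g).surjective x
  have h1 : (QuotientGroup.mk (parE g (i, q)) : Qt g) = q := mk_par g (i, q)
  rw [h1, parE_apply]
  exact (inv_pow h _ _).symm

theorem phi_surj (hn : Fintype.card G = n) (h2 : 2 ≤ n) (g : G) (m : ℕ) (z : G ⊕ JJ n → ℤ)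
    (hz : IneqZ m z) (hf : ∀ i, z (sigma n g i) = z i) : ∃ t ∈ Par n g m, phi n g t = z := by
  obtain ⟨i1, i2, i3, i4, i5, i6⟩ := hz
  have hn0 : (0 : ℤ) < n := by
    have : 0 < n := by omega
    exact_mod_cast this
  have hsq : ((n ^ 2 - 2 : ℕ) : ℤ) = (n : ℤ) ^ 2 - 2 := by
    have : 2 ≤ n ^ 2 := by nlinarith
    push_cast [this]
    ring
  set w : ℤ := z (Sum.inr none) with hw
  obtain ⟨b0, hb0⟩ : ∃ b0 : ℕ, (b0 : ℤ) = w / n :=
    ⟨(w / n).toNat, Int.toNat_of_nonneg (Int.ediv_nonneg i1 hn0.le)⟩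
  obtain ⟨k, hk⟩ : ∃ k : ℕ, (k : ℤ) = w % n :=
    ⟨(w % n).toNat, Int.toNat_of_nonneg (Int.emod_nonneg _ hn0.ne')⟩
  have hkn : (k : ℤ) < n := by
    rw [hk]
    exact Int.emod_lt_of_pos _ hn0
  have hwk : w = n * b0 + k := by
    rw [hb0, hk]
    exact (Int.mul_ediv_add_emod w n).symm
  have hnn : ∀ a : ℤ, 0 ≤ w + n * a → 0 ≤ a + b0 := by
    intro a ha
    rw [hwk] at ha
    by_contra hneg
    have h1 : a + b0 ≤ -1 := by omega
    have h3 : (n : ℤ) * (a + b0) ≤ n * (-1) := mul_le_mul_of_nonneg_left h1 hn0.le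
    nlinarith
  obtain ⟨f, hf'⟩ : ∃ f : Qt g → ℕ, ∀ x : G,
      ((f (QuotientGroup.mk x) : ℕ) : ℤ) = z (Sum.inl x) + b0 := by
    refine ⟨fun q => (z (Sum.inl q.out) + b0).toNat, fun x => ?_⟩
    simp only
    rw [inv_out hf x]
    exact Int.toNat_of_nonneg (hnn _ (i2 x))
  have hch : ∀ e, ∃ c : ℕ, (c : ℤ) = z (Sum.inr (some (some e))) + b0 := fun e =>
    ⟨(z (Sum.inr (some (some e))) + b0).toNat, Int.toNat_of_nonneg (hnn _ (i3 e))⟩
  choose c hc using hch
  obtain ⟨b1, hb1⟩ : ∃ b1 : ℕ, (b1 : ℤ) = (m - ((n + 1) * w + ∑ x, z (Sum.inl x) +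
      ∑ e, z (Sum.inr (some (some e))))) + b0 :=
    ⟨_, Int.toNat_of_nonneg (hnn _ i4)⟩
  obtain ⟨y, hy⟩ : ∃ y : ℕ, (y : ℤ) = z (Sum.inr (some none)) := ⟨_, Int.toNat_of_nonneg i5⟩
  set l : Qt g →₀ ℕ := Finsupp.equivFunOnFinite.symm fun q => orderOf g * f q with hl
  set b : JJ n →₀ ℕ := Finsupp.equivFunOnFinite.symm fun a => match a with
    | none => b0
    | some none => b1
    | some (some e) => c e with hb
  have hlq : ∀ q, l q = orderOf g * f q := fun q => rfl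
  have hbn : b none = b0 := rfl
  have hb1' : b (some none) = b1 := rfl
  have hbe : ∀ e, b (some (some e)) = c e := fun e => rfl
  have hsl : ((∑ q, l q : ℕ) : ℤ) = ∑ x, z (Sum.inl x) + n * b0 := by
    have e1 : ∑ q, l q = ∑ x : G, f (QuotientGroup.mk x) := by
      rw [sum_coset g f, Finset.mul_sum]
      exact Finset.sum_congr rfl fun q _ => hlq q
    rw [e1]
    push_cast
    simp only [hf', Finset.sum_add_distrib, Finset.sum_const, Finset.card_univ, hn, nsmul_eq_mul]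
  have hsc : ((∑ e, c e : ℕ) : ℤ) = ∑ e, z (Sum.inr (some (some e))) +
      ((n : ℤ) ^ 2 - 2) * b0 := by
    push_cast
    simp only [hc, Finset.sum_add_distrib, Finset.sum_const, Finset.card_univ,
      Fintype.card_fin, nsmul_eq_mul, hsq]
  refine ⟨⟨k, ⟨(∑ q, l q, b none + b (some none) + ∑ e, b (some (some e))), ((l, y), b)⟩⟩,
    ?_, ?_⟩
  · rw [mem_Par]
    refine ⟨by exact_mod_cast hkn, ?_, rfl, ?_, ?_, rfl⟩
    · have hz' : ((((n + 1) * k + ∑ q, l q + (b none + b (some none) +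
          ∑ e, b (some (some e))) : ℕ)) : ℤ) = (m : ℤ) := by
        rw [hbn, hb1']
        simp only [hbe]
        push_cast [-Nat.cast_sum]
        rw [hsl, hsc, hb1, hwk]
        ring
      exact_mod_cast hz'
    · intro q
      rw [hlq]
      exact Dvd.intro _ rfl
    · have h7 : (y : ℤ) < ((k + ∑ q, l q + 1 : ℕ) : ℤ) := by
        push_cast [-Nat.cast_sum]
        rw [hsl, hy]
        rw [hwk] at i6
        linarith
      exact_mod_cast h7
  · funext i
    rcases i with x | _ | _ | e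
    · simp only [phi]
      rw [hlq, hbn, Nat.mul_div_cancel_left _ (orderOf_pos g), hf']
      ring
    · simp only [phi]
      rw [hbn, ← hw, hwk]
    · simp only [phi]
      exact hy
    · simp only [phi]
      rw [hbn, hbe, hc]
      ring

theorem fix_iff (g : G) (m : ℕ) (hm : (0 : ℝ) < m) (hn : Fintype.card G = n) (h2 : 2 ≤ n)
    (z : G ⊕ JJ n → ℤ) :
    (m : ℝ) • (AG G n hn h2).act g ((m : ℝ)⁻¹ • emb z) = emb z ↔
      ∀ i, z (sigma n g i) = z i := by
  have e : (m : ℝ) • (AG G n hn h2).act g ((m : ℝ)⁻¹ • emb z) = fun i => emb z (sigma n g i) := by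
    funext i
    change (m : ℝ) * ((m : ℝ)⁻¹ * emb z (sigma n g i)) = emb z (sigma n g i)
    rw [← mul_assoc, mul_inv_cancel₀ hm.ne', one_mul]
  rw [e]
  constructor
  · intro h i
    have := congrFun h i
    simpa [emb] using this
  · intro h
    funext i
    simp only [emb]
    rw [h i]

theorem fixedPts_eq (hn : Fintype.card G = n) (h2 : 2 ≤ n) (g : G) (m : ℕ) (hm : 0 < m) :
    (AG G n hn h2).fixedPts m g = emb '' (phi n g '' (Par n g m : Set _)) := by
  have hm' : (0 : ℝ) < (m : ℝ) := by exact_mod_cast hm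
  ext p
  constructor
  · rintro ⟨⟨z, rfl⟩, h3, h4⟩
    have h5 : IneqZ m z := (ineq_iff m z).mp ((mem_smul_Pol hm' _).mp h3)
    have h6 := (fix_iff g m hm' hn h2 z).mp h4
    obtain ⟨t, ht, rfl⟩ := phi_surj hn h2 g m z h5 h6
    exact ⟨_, ⟨t, ht, rfl⟩, rfl⟩
  · rintro ⟨_, ⟨t, ht, rfl⟩, rfl⟩
    obtain ⟨h5, h6⟩ := phi_mem hn h2 g m t ht
    exact ⟨⟨_, rfl⟩, (mem_smul_Pol hm' _).mpr ((ineq_iff m _).mpr h5),
      (fix_iff g m hm' hn h2 _).mpr h6⟩

theorem ncard_fixedPts (hn : Fintype.card G = n) (h2 : 2 ≤ n) (g : G) (m : ℕ) (hm : 0 < m) :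
    ((AG G n hn h2).fixedPts m g).ncard = (Par n g m).card := by
  rw [fixedPts_eq hn h2 g m hm, Set.ncard_image_of_injective _ emb_injective,
    Set.InjOn.ncard_image (phi_injOn h2 g m), Set.ncard_coe_finset]

/-- The generating function of the numbers of parameters. -/
theorem gf_Par (g : G) : gf (Par n g) =
    ∑ k ∈ range n, PowerSeries.X ^ ((n + 1) * k) * (gf (FY g k) * gf (FB (JJ n))) := by
  ext m
  rw [gf, PowerSeries.coeff_mk, Par, Finset.card_sigma, map_sum]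
  push_cast
  refine Finset.sum_congr rfl fun k _ => ?_
  rw [← gf_conv, PowerSeries.coeff_X_pow_mul']
  split_ifs with h
  · simp [gf]
  · simp

end Run7.h611.EhrG
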