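import Mathlib

/-!
# The equivariant H*-series of a lattice polytope

A full-dimensional lattice polytope `P` in `ℝ^ι` (the lattice is `ℤ^ι`, `ι` a finite index set) with
an action of a group `G` by affine automorphisms of the lattice which map `P` to itself; its
equivariant H*-series; polynomial and effective series (Stapledon).
-/

open scoped Pointwise
open Polynomial

noncomputable section

namespace Run7.h611.EhrG

/-- The lattice `ℤ^ι` in `ℝ^ι`. -/
def lattice (ι : Type) : Set (ι → ℝ) :=
  Set.range fun (z : ι → ℤ) (i : ι) => (z i : ℝ)

/-- A full-dimensional lattice polytope `P` in `ℝ^ι` with the lattice `ℤ^ι`, `ι` a finite index set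
(so the dimension is the number of the elements of `ι`), together with an action of the group `G` by
affine automorphisms of the lattice that map `P` to itself. (An affine automorphism of the lattice
`ℤ^ι` is given by its extension to `ℝ^ι`.) -/
structure InvariantPolytope (G : Type) [Group G] (ι : Type) [Fintype ι] [DecidableEq ι] where
  /-- the polytope -/
  P : Set (ι → ℝ)
  /-- it is the convex hull of finitely many lattice points -/
  polytope : ∃ V : Set (ι → ℝ), V.Finite ∧ V ⊆ lattice ι ∧ P = convexHull ℝ V
  /-- it is full-dimensional -/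
  fullDim : affineSpan ℝ P = ⊤
  /-- the action of the group -/
  act : G →* ((ι → ℝ) ≃ᵃ[ℝ] (ι → ℝ))
  /-- the action maps the lattice onto itself -/
  act_lattice : ∀ g, act g '' lattice ι = lattice ι
  /-- the action maps the polytope onto itself -/
  act_polytope : ∀ g, act g '' P = P

namespace InvariantPolytope

variable {G : Type} [Group G] {ι : Type} [Fintype ι] [DecidableEq ι] (A : InvariantPolytope G ι)

/-- The lattice points of `mP` fixed by `g`, for `m ≥ 1`. Here `g` acts on `mP` by
`u ↦ m • g (m⁻¹ • u)`. -/
def fixedPts (m : ℕ) (g : G) : Set (ι → ℝ) :=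
  {u | u ∈ lattice ι ∧ u ∈ (m : ℝ) • A.P ∧ (m : ℝ) • A.act g ((m : ℝ)⁻¹ • u) = u}

/-- The permutation character `χ_{mP}` of `G` on the lattice points of `mP`: its value at `g` is the
number of the lattice points of `mP` fixed by `g`. For `m = 0` it is the trivial character. -/
def chi (m : ℕ) (g : G) : ℕ := if m = 0 then 1 else (A.fixedPts m g).ncard

/-- The polynomial `det (I - t ρ(g))`, where `ρ(g)` is the linear part of the action of `g`. -/
def detOneSub (g : G) : ℝ[X] :=
  Matrix.det (1 - (X : ℝ[X]) •
    (LinearMap.toMatrix' ((A.act g).linear : (ι → ℝ) →ₗ[ℝ] (ι → ℝ))).map C)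

/-- The value at `g` of the equivariant H*-series: the power series `H*(t)` with
`∑ χ_{mP}(g) t^m = H*(t) / ((1 - t) det (I - t ρ(g)))`. -/
def hStarSeries (g : G) : PowerSeries ℝ :=
  PowerSeries.mk (fun m => (A.chi m g : ℝ)) * (((1 - X) * A.detOneSub g : ℝ[X]) : PowerSeries ℝ)

/-- The value at `g` of the coefficient `H*_i` of the equivariant H*-series. -/
def hStar (i : ℕ) (g : G) : ℝ := PowerSeries.coeff i (A.hStarSeries g)

/-- The equivariant H*-series is a polynomial: only finitely many `H*_i` are different from zero. -/
def IsPolynomial : Prop := ∃ N : ℕ, ∀ i, N < i → ∀ g, A.hStar i g = 0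

/-- The equivariant H*-series is effective: every `H*_i` is the character of a finite-dimensional
complex representation of `G`. -/
def IsEffective : Prop :=
  ∀ i : ℕ, ∃ (V : Type) (_ : AddCommGroup V) (_ : Module ℂ V) (_ : FiniteDimensional ℂ V)
    (r : Representation ℂ G V), ∀ g, LinearMap.trace ℂ V (r g) = (A.hStar i g : ℂ)

end InvariantPolytope

end Run7.h611.EhrG
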