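import Pool.Agent.Run7.h611.EhrG.Act

/-!
# The determinants
-/

open scoped Pointwise

set_option linter.unusedSectionVars false

noncomputable section

namespace Run7.h611.EhrG

section cyc
variable {R : Type} [CommRing R]

/-- `1 - t C` for the matrix `C` of a cycle of length `k + 1`. -/
def cycB (k : ℕ) (t : R) : Matrix (Fin (k + 1)) (Fin (k + 1)) R := fun i j =>
  (if i = j then 1 else 0) - t * (if (i.val + 1) % (k + 1) = j.val then 1 else 0)

/-- A triangular matrix with the same determinant. -/
def cycA (k : ℕ) (t : R) : Matrix (Fin (k + 1)) (Fin (k + 1)) R := fun i j =>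
  (if i = j then 1 else 0) - (if i = Fin.last k then t ^ (j.val + 1) else 0)

theorem det_cyc (k : ℕ) (t : R) : (cycB k t).det = 1 - t ^ (k + 1) := by
  have h1 : (cycA k t).det = (cycB k t).det := by
    refine Matrix.det_eq_of_forall_col_eq_smul_add_pred (fun _ => t) ?_ ?_
    · intro i
      unfold cycA cycB
      have e : ((i.val + 1) % (k + 1) = (0 : Fin (k + 1)).val) ↔ i = Fin.last k := by
        rw [Fin.ext_iff, Fin.val_last, Fin.val_zero]
        have hi := i.isLt
        constructor
        · intro h
          by_contra hne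
          rw [Nat.mod_eq_of_lt (by omega)] at h
          omega
        · intro h
          rw [h, Nat.mod_self]
      rw [if_congr e rfl rfl, Fin.val_zero]
      congr 1
      split_ifs <;> simp
    · intro i j
      unfold cycA cycB
      have hj := j.isLt
      have hi := i.isLt
      have e : ((i.val + 1) % (k + 1) = (j.succ).val) ↔ i = Fin.castSucc j := by
        rw [Fin.ext_iff, Fin.val_succ, Fin.val_castSucc]
        constructor
        · intro h
          by_cases hne : i.val = k
          · rw [hne, Nat.mod_self] at h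
            omega
          · rw [Nat.mod_eq_of_lt (by omega)] at h
            omega
        · intro h
          rw [h, Nat.mod_eq_of_lt (by omega)]
      rw [if_congr e rfl rfl, Fin.val_succ, Fin.val_castSucc]
      split_ifs <;> ring
  rw [← h1, Matrix.det_of_isLowerTriangular, Fin.prod_univ_castSucc]
  · have h2 : ∀ i : Fin k, cycA k t (Fin.castSucc i) (Fin.castSucc i) = 1 := by
      intro i
      unfold cycA
      rw [if_pos rfl, if_neg (Fin.castSucc_lt_last i).ne, sub_zero]
    simp only [h2, Finset.prod_const_one, one_mul]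
    unfold cycA
    simp
  · intro i j hij
    have hij' : i < j := hij
    unfold cycA
    rw [if_neg hij'.ne, if_neg (hij'.trans_le (Fin.le_last j)).ne, sub_zero]

end cyc

section group
variable {G : Type} [Group G] [Fintype G] [DecidableEq G]

/-- The cosets of the subgroup generated by `g`. -/
abbrev Qt (g : G) : Type := G ⧸ Subgroup.zpowers g

/-- The parametrisation of the group by the powers of `g` and the cosets. -/
def par (g : G) (a : Fin (orderOf g) × Qt g) : G := a.2.out * g ^ a.1.val

theorem mk_par (g : G) (a : Fin (orderOf g) × Qt g) : (QuotientGroup.mk (par g a) : Qt g) = a.2 := by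
  have h : (QuotientGroup.mk (par g a) : Qt g) = QuotientGroup.mk a.2.out := by
    rw [par]
    exact QuotientGroup.mk_mul_of_mem _ (Subgroup.npow_mem_zpowers g _)
  rw [h]
  exact QuotientGroup.out_eq' _

theorem par_bijective (g : G) : Function.Bijective (par g) := by
  constructor
  · rintro ⟨i, q⟩ ⟨j, q'⟩ h
    have h1 := congrArg (QuotientGroup.mk : G → Qt g) h
    rw [mk_par, mk_par] at h1
    simp only at h1
    subst h1
    have h2 : g ^ i.val = g ^ j.val := mul_left_cancel h
    have h3 : i.val = j.val :=
      pow_injOn_Iio_orderOf (Set.mem_Iio.mpr i.isLt) (Set.mem_Iio.mpr j.isLt) h2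
    rw [Fin.ext h3]
  · intro x
    have h1 : (QuotientGroup.mk x : Qt g).out⁻¹ * x ∈ Subgroup.zpowers g := by
      rw [← QuotientGroup.eq]
      exact QuotientGroup.out_eq' _
    rw [mem_zpowers_iff_mem_range_orderOf, Finset.mem_image] at h1
    obtain ⟨i, hi, h⟩ := h1
    refine ⟨(⟨i, Finset.mem_range.mp hi⟩, QuotientGroup.mk x), ?_⟩
    rw [par]
    simp only
    rw [h, mul_inv_cancel_left]

/-- The parametrisation as an equivalence. -/
def parE (g : G) : Fin (orderOf g) × Qt g ≃ G := Equiv.ofBijective _ (par_bijective g)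

theorem parE_apply (g : G) (a : Fin (orderOf g) × Qt g) : parE g a = a.2.out * g ^ a.1.val := rfl

instance (g : G) : Fintype (Qt g) := Fintype.ofFinite _

instance (g : G) : DecidableEq (Qt g) := Classical.decEq _

theorem card_eq (g : G) : Fintype.card G = orderOf g * Fintype.card (Qt g) := by
  rw [← Fintype.card_congr (parE g), Fintype.card_prod, Fintype.card_fin]

variable {R : Type} [CommRing R]

/-- The matrix `1 - t A` where `A` is the matrix of the right multiplication by `g`. -/
def grpB (g : G) (t : R) : Matrix G G R := fun x y =>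
  (if x = y then 1 else 0) - t * (if x * g = y then 1 else 0)

theorem det_grp (g : G) (t : R) :
    (grpB g t).det = (1 - t ^ orderOf g) ^ Fintype.card (Qt g) := by
  obtain ⟨k, hk⟩ : ∃ k, orderOf g = k + 1 := ⟨orderOf g - 1, by
    have := orderOf_pos g
    omega⟩
  rw [← Matrix.det_submatrix_equiv_self (parE g) (grpB g t)]
  have e : (grpB g t).submatrix (parE g) (parE g) =
      Matrix.blockDiagonal fun _ : Qt g =>
        (cycB k t).submatrix (Fin.cast hk) (Fin.cast hk) := by
    ext ⟨i, q⟩ ⟨j, q'⟩
    rw [Matrix.submatrix_apply, Matrix.blockDiagonal_apply]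
    simp only
    unfold grpB
    rw [parE_apply, parE_apply]
    simp only
    have h1 : (q.out * g ^ i.val = q'.out * g ^ j.val) ↔ (q = q' ∧ i = j) := by
      constructor
      · intro h
        have := (par_bijective g).1 (a₁ := (i, q)) (a₂ := (j, q')) h
        rw [Prod.mk.injEq] at this
        exact ⟨this.2, this.1⟩
      · rintro ⟨rfl, rfl⟩
        rfl
    have h2 : (q.out * g ^ i.val * g = q'.out * g ^ j.val) ↔
        (q = q' ∧ (i.val + 1) % (k + 1) = j.val) := by
      have h3 : q.out * g ^ i.val * g = par g (⟨(i.val + 1) % (orderOf g),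
          Nat.mod_lt _ (orderOf_pos g)⟩, q) := by
        rw [par]
        simp only
        rw [pow_mod_orderOf, pow_succ, mul_assoc]
      rw [h3]
      constructor
      · intro h
        have := (par_bijective g).1 (a₁ := (⟨(i.val + 1) % (orderOf g),
          Nat.mod_lt _ (orderOf_pos g)⟩, q)) (a₂ := (j, q')) h
        rw [Prod.mk.injEq] at this
        refine ⟨this.2, ?_⟩
        rw [← hk]
        exact congrArg Fin.val this.1
      · rintro ⟨rfl, h⟩
        rw [← hk] at h
        rw [par]
        simp only
        rw [h]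
    by_cases hq : q = q'
    · subst hq
      rw [if_pos rfl, Matrix.submatrix_apply]
      unfold cycB
      simp only [h1, h2, true_and, Fin.val_cast]
      congr 2
      rw [Fin.cast_inj]
    · rw [if_neg hq, if_neg (fun h => hq (h1.mp h).1), if_neg (fun h => hq (h2.mp h).1)]
      ring
  rw [e, Matrix.det_blockDiagonal, Finset.prod_const, Finset.card_univ]
  congr 1
  have e2 : (cycB k t).submatrix (Fin.cast hk) (Fin.cast hk) =
      (cycB k t).submatrix (finCongr hk) (finCongr hk) := rfl
  rw [e2, Matrix.det_submatrix_equiv_self, det_cyc, hk]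

end group

section AG
open Polynomial
variable {G : Type} [Group G] [Fintype G] [DecidableEq G] {n : ℕ}

theorem card_JJ (h2 : 2 ≤ n) : Fintype.card (JJ n) = n ^ 2 := by
  have : 2 ≤ n ^ 2 := by nlinarith
  simp only [Fintype.card_option, Fintype.card_fin]
  omega

theorem detOneSub_AG (hn : Fintype.card G = n) (h2 : 2 ≤ n) (g : G) :
    (AG G n hn h2).detOneSub g =
      (1 - X ^ orderOf g) ^ Fintype.card (Qt g) * (1 - X) ^ (n ^ 2) := by
  rw [InvariantPolytope.detOneSub]
  have e : (1 : Matrix (G ⊕ JJ n) (G ⊕ JJ n) ℝ[X]) - (X : ℝ[X]) • (LinearMap.toMatrix'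
      (((AG G n hn h2).act g).linear : (G ⊕ JJ n → ℝ) →ₗ[ℝ] (G ⊕ JJ n → ℝ))).map C =
      Matrix.fromBlocks (grpB g X) 0 0 ((1 - X : ℝ[X]) • (1 : Matrix (JJ n) (JJ n) ℝ[X])) := by
    ext i j : 2
    rw [Matrix.sub_apply, Matrix.smul_apply, Matrix.map_apply, LinearMap.toMatrix'_apply]
    have h : (((AG G n hn h2).act g).linear : (G ⊕ JJ n → ℝ) →ₗ[ℝ] (G ⊕ JJ n → ℝ))
        (Pi.single j 1) i = if sigma n g i = j then 1 else 0 := by
      change (Pi.single j (1 : ℝ) : G ⊕ JJ n → ℝ) (sigma n g i) = _
      rw [Pi.single_apply]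
    rw [h]
    rcases i with x | a <;> rcases j with y | b
    · rw [Matrix.fromBlocks_apply₁₁, sigma_inl, Matrix.one_apply]
      unfold grpB
      simp only [Sum.inl.injEq]
      congr 1
      split_ifs <;> simp
    · rw [Matrix.fromBlocks_apply₁₂, sigma_inl]
      simp
    · rw [Matrix.fromBlocks_apply₂₁, sigma_inr]
      simp
    · rw [Matrix.fromBlocks_apply₂₂, sigma_inr, Matrix.smul_apply, Matrix.one_apply,
        Matrix.one_apply]
      simp only [Sum.inr.injEq]
      split_ifs <;> simp
  rw [e, Matrix.det_fromBlocks_zero₁₂, det_grp, Matrix.det_smul, Matrix.det_one, mul_one,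
    card_JJ h2]

end AG

end Run7.h611.EhrG
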