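import Pool.Agent.Run7.h611.EhrG.Series

/-!
# The equivariant H*-series is a polynomial but not effective
-/

open scoped Pointwise

set_option linter.unusedSectionVars false

noncomputable section

namespace Run7.h611.EhrG

open Finset

section poly
open Polynomial

/-- `∑_{k < n} X^((n+1)k)`. -/
def EE (n : ℕ) : ℝ[X] := ∑ k ∈ range n, X ^ ((n + 1) * k)

/-- `∑_{k < n} (k+1) X^((n+1)k)`. -/
def AA (n : ℕ) : ℝ[X] := ∑ k ∈ range n, ((k + 1 : ℕ) : ℝ[X]) * X ^ ((n + 1) * k)

theorem X_sub_one_ne : (X - 1 : ℝ[X]) ≠ 0 := X_sub_C_ne_zero 1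

theorem geom_dvd {o n : ℕ} (h : o ∣ n) :
    (∑ i ∈ range o, X ^ i : ℝ[X]) ∣ EE n := by
  have h0 : (∑ i ∈ range o, X ^ i : ℝ[X]) ∣ X ^ o - 1 := Dvd.intro _ (geom_sum_mul X o)
  have h1 : (∑ i ∈ range o, X ^ i : ℝ[X]) ∣ X ^ n - 1 := by
    obtain ⟨q, rfl⟩ := h
    refine h0.trans ?_
    rw [pow_mul]
    exact sub_one_dvd_pow_sub_one _ _
  have h2 : (∑ i ∈ range o, X ^ i : ℝ[X]) ∣ ∑ k ∈ range n, X ^ k := by
    obtain ⟨q, hq⟩ := h
    have h3 : (X ^ o - 1 : ℝ[X]) ∣ X ^ n - 1 := by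
      rw [hq, pow_mul]
      exact sub_one_dvd_pow_sub_one _ _
    obtain ⟨T, hT⟩ := h3
    refine ⟨T, mul_right_cancel₀ X_sub_one_ne ?_⟩
    rw [geom_sum_mul, hT, ← geom_sum_mul X o]
    ring
  have h4 : EE n = ∑ k ∈ range n, X ^ k + ∑ k ∈ range n, X ^ k * ((X ^ n) ^ k - 1) := by
    rw [← Finset.sum_add_distrib]
    refine Finset.sum_congr rfl fun k _ => ?_
    rw [← pow_mul]
    ring
  rw [h4]
  refine dvd_add h2 (Finset.dvd_sum fun k _ => ?_)
  exact Dvd.dvd.mul_left (h1.trans (sub_one_dvd_pow_sub_one _ _)) _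

theorem coeff_EE {n j : ℕ} (hj : 0 < j) (hjn : j ≤ n) : (EE n).coeff j = 0 := by
  rw [EE, finsetSum_coeff]
  refine Finset.sum_eq_zero fun k _ => ?_
  rw [coeff_X_pow, if_neg]
  intro h
  rcases Nat.eq_zero_or_pos k with rfl | hk
  · omega
  · have : n + 1 ≤ (n + 1) * k := Nat.le_mul_of_pos_right _ hk
    omega

theorem coeff_EE_zero {n : ℕ} (hn : 0 < n) : (EE n).coeff 0 = 1 := by
  rw [EE, finsetSum_coeff, Finset.sum_eq_single 0]
  · simp
  · intro k _ hk
    rw [coeff_X_pow, if_neg]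
    have : 0 < (n + 1) * k := Nat.mul_pos (by omega) (Nat.pos_of_ne_zero hk)
    omega
  · intro h
    exact absurd (Finset.mem_range.mpr hn) h

theorem coeff_AA {n j : ℕ} (hj : 0 < j) (hjn : j ≤ n) : (AA n).coeff j = 0 := by
  rw [AA, finsetSum_coeff]
  refine Finset.sum_eq_zero fun k _ => ?_
  rw [← C_eq_natCast, coeff_C_mul, coeff_X_pow, if_neg, mul_zero]
  intro h
  rcases Nat.eq_zero_or_pos k with rfl | hk
  · omega
  · have : n + 1 ≤ (n + 1) * k := Nat.le_mul_of_pos_right _ hk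
    omega

end poly

variable {G : Type} [Group G] [Fintype G] [DecidableEq G] {n : ℕ}

open Polynomial in
/-- The H*-series. -/
theorem hStarSeries_eq (hn : Fintype.card G = n) (h2 : 2 ≤ n) (g : G) (R : ℝ[X])
    (hR : (∑ i ∈ range (orderOf g), X ^ i : ℝ[X]) * R = EE n) :
    (AG G n hn h2).hStarSeries g =
      (((1 - X) * AA n + (n : ℝ[X]) * X ^ orderOf g * R : ℝ[X]) : PowerSeries ℝ) := by
  have ho := orderOf_pos g
  have hne : ((1 - X ^ orderOf g : ℝ[X]) : PowerSeries ℝ) ≠ 0 := by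
    intro h
    have h1 := Polynomial.coe_eq_zero_iff.mp h
    have h3 := congrArg (fun p => Polynomial.coeff p 0) h1
    simp only [coeff_sub, coeff_one_zero, coeff_X_pow, coeff_zero] at h3
    rw [if_neg (by omega)] at h3
    norm_num at h3
  apply mul_right_cancel₀ hne
  have e1 : ((1 - X ^ orderOf g : ℝ[X]) : PowerSeries ℝ) = 1 - PowerSeries.X ^ orderOf g := by
    push_cast
    rfl
  have e2 : (AG G n hn h2).hStarSeries g * ((1 - X ^ orderOf g : ℝ[X]) : PowerSeries ℝ) =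
      (((1 - X) * ∑ k ∈ range n, X ^ ((n + 1) * k) *
        (((k + 1 : ℕ) : ℝ[X]) * (1 - X ^ orderOf g) + (n : ℝ[X]) * X ^ orderOf g) : ℝ[X]) :
          PowerSeries ℝ) := by
    rw [e1, hStarSeries_mul]
    have hs : (((∑ k ∈ range n, X ^ ((n + 1) * k) * (((k + 1 : ℕ) : ℝ[X]) *
        (1 - X ^ orderOf g) + (n : ℝ[X]) * X ^ orderOf g)) : ℝ[X]) : PowerSeries ℝ) =
        ∑ k ∈ range n, PowerSeries.X ^ ((n + 1) * k) *
        (((k + 1 : ℕ) : PowerSeries ℝ) * (1 - PowerSeries.X ^ orderOf g) +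
          (n : PowerSeries ℝ) * PowerSeries.X ^ orderOf g) := by
      rw [← Polynomial.coeToPowerSeries.ringHom_apply, map_sum]
      refine Finset.sum_congr rfl fun k _ => ?_
      rw [Polynomial.coeToPowerSeries.ringHom_apply]
      have hc : ∀ m : ℕ, ((m : ℝ[X]) : PowerSeries ℝ) = (m : PowerSeries ℝ) := fun m =>
        map_natCast (Polynomial.coeToPowerSeries.ringHom (R := ℝ)) m
      push_cast
      rw [hc, hc]
    rw [Polynomial.coe_mul, hs]
    push_cast
    rfl
  rw [e2, ← Polynomial.coe_mul]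
  congr 1
  have e3 : ∑ k ∈ range n, X ^ ((n + 1) * k) *
        (((k + 1 : ℕ) : ℝ[X]) * (1 - X ^ orderOf g) + (n : ℝ[X]) * X ^ orderOf g) =
      (1 - X ^ orderOf g) * AA n + (n : ℝ[X]) * X ^ orderOf g * EE n := by
    rw [AA, EE, Finset.mul_sum, Finset.mul_sum, ← Finset.sum_add_distrib]
    refine Finset.sum_congr rfl fun k _ => ?_
    ring
  have e4 : (1 - X : ℝ[X]) * (∑ i ∈ range (orderOf g), X ^ i) = 1 - X ^ orderOf g := by
    have := geom_sum_mul (X : ℝ[X]) (orderOf g)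
    linear_combination -this
  rw [e3, ← hR]
  linear_combination (n : ℝ[X]) * X ^ orderOf g * R * e4

open Polynomial in
theorem exists_R (hn : Fintype.card G = n) (g : G) :
    ∃ R : ℝ[X], (∑ i ∈ range (orderOf g), X ^ i : ℝ[X]) * R = EE n := by
  have h : orderOf g ∣ n := by
    rw [← hn, card_eq g]
    exact Dvd.intro _ rfl
  obtain ⟨R, hR⟩ := geom_dvd h
  exact ⟨R, hR.symm⟩

theorem isPolynomial (hn : Fintype.card G = n) (h2 : 2 ≤ n) : (AG G n hn h2).IsPolynomial := by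
  choose R hR using fun g : G => exists_R hn g
  refine ⟨Finset.univ.sup fun g => ((1 - Polynomial.X) * AA n +
    (n : Polynomial ℝ) * Polynomial.X ^ orderOf g * R g).natDegree, fun i hi g => ?_⟩
  rw [InvariantPolytope.hStar, hStarSeries_eq hn h2 g (R g) (hR g), Polynomial.coeff_coe]
  apply Polynomial.coeff_eq_zero_of_natDegree_lt
  exact lt_of_le_of_lt (Finset.le_sup (f := fun g => ((1 - Polynomial.X) * AA n +
    (n : Polynomial ℝ) * Polynomial.X ^ orderOf g * R g).natDegree) (Finset.mem_univ g)) hi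

open Polynomial in
theorem coeff_first {n j : ℕ} (hj : 2 ≤ j) (hjn : j ≤ n) :
    ((1 - X : ℝ[X]) * AA n).coeff j = 0 := by
  obtain ⟨i, rfl⟩ : ∃ i, j = i + 1 := ⟨j - 1, by omega⟩
  rw [sub_mul, one_mul, coeff_sub, coeff_X_mul, coeff_AA (by omega) hjn,
    coeff_AA (by omega) (by omega), sub_zero]

theorem hStar_one (hn : Fintype.card G = n) (h2 : 2 ≤ n) {j : ℕ} (hj : 2 ≤ j) (hjn : j ≤ n) :
    (AG G n hn h2).hStar j 1 = 0 := by
  obtain ⟨R, hR⟩ := exists_R hn (1 : G)
  rw [InvariantPolytope.hStar, hStarSeries_eq hn h2 1 R hR, Polynomial.coeff_coe,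
    Polynomial.coeff_add, coeff_first hj hjn, zero_add]
  rw [orderOf_one, Finset.sum_range_one, pow_zero, one_mul] at hR
  obtain ⟨i, rfl⟩ : ∃ i, j = i + 1 := ⟨j - 1, by omega⟩
  rw [orderOf_one, pow_one, mul_assoc, ← Polynomial.C_eq_natCast, Polynomial.coeff_C_mul,
    Polynomial.coeff_X_mul, hR, coeff_EE (by omega) (by omega), mul_zero]

theorem hStar_orderOf (hn : Fintype.card G = n) (h2 : 2 ≤ n) (g : G) (hg : g ≠ 1) :
    (AG G n hn h2).hStar (orderOf g) g = n := by
  obtain ⟨R, hR⟩ := exists_R hn g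
  have ho : 2 ≤ orderOf g := by
    have h1 := orderOf_pos g
    have h3 : orderOf g ≠ 1 := fun h => hg (orderOf_eq_one_iff.mp h)
    omega
  have hon : orderOf g ≤ n := by
    rw [← hn]
    exact orderOf_le_card_univ
  rw [InvariantPolytope.hStar, hStarSeries_eq hn h2 g R hR, Polynomial.coeff_coe,
    Polynomial.coeff_add, coeff_first ho hon, zero_add]
  have hR0 : R.coeff 0 = 1 := by
    have h := congrArg (fun p => Polynomial.coeff p 0) hR
    simp only [Polynomial.mul_coeff_zero] at h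
    rw [coeff_EE_zero (by omega), Polynomial.finsetSum_coeff, Finset.sum_eq_single 0] at h
    · simpa using h
    · intro k _ hk
      rw [Polynomial.coeff_X_pow, if_neg (Ne.symm hk)]
    · intro h
      exact absurd (Finset.mem_range.mpr (by omega)) h
  rw [mul_assoc, ← Polynomial.C_eq_natCast, Polynomial.coeff_C_mul,
    Polynomial.coeff_X_pow_mul', if_pos le_rfl, Nat.sub_self, hR0, mul_one]

theorem not_isEffective (hn : Fintype.card G = n) (h2 : 2 ≤ n) :
    ¬ (AG G n hn h2).IsEffective := by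
  intro h
  have : Nontrivial G := by
    rw [← Fintype.one_lt_card_iff_nontrivial]
    omega
  obtain ⟨g, hg⟩ := exists_ne (1 : G)
  have ho : 2 ≤ orderOf g := by
    have h1 := orderOf_pos g
    have h3 : orderOf g ≠ 1 := fun h => hg (orderOf_eq_one_iff.mp h)
    omega
  have hon : orderOf g ≤ n := by
    rw [← hn]
    exact orderOf_le_card_univ
  obtain ⟨V, _, _, _, r, hr⟩ := h (orderOf g)
  have h1 := hr 1
  have h3 := hr g
  rw [hStar_one hn h2 ho hon, map_one, LinearMap.trace_one] at h1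
  rw [hStar_orderOf hn h2 g hg] at h3
  have h0 : Module.finrank ℂ V = 0 := by
    have : ((Module.finrank ℂ V : ℕ) : ℂ) = 0 := by
      rw [h1]
      simp
    exact_mod_cast this
  have hsub : Subsingleton V := Module.finrank_zero_iff.mp h0
  have h4 : r g = 0 := by
    ext v
    exact Subsingleton.elim _ _
  rw [h4, map_zero] at h3
  have h5 : (n : ℂ) = 0 := by
    rw [← Complex.ofReal_natCast]
    exact h3.symm
  have h6 : n = 0 := by exact_mod_cast h5
  omega

end Run7.h611.EhrG
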