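import Pool.Agent.Run7.h611.EhrG.Defs

/-!
# The polytope of a finite group

`G` is a finite group with `n` elements. Coordinates of `ℝ^ι`: `u x` (for `x ∈ G`), `w`, `y` and
`v e` (for `n² - 2` indices `e`). The polytope is the join of the prism over the simplex with the
vertex set `G` with a simplex with `n²` vertices, in a lattice which contains the lattice of the
vertices with index `n`.
-/

open scoped Pointwise

set_option linter.unusedSectionVars false

noncomputable section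

namespace Run7.h611.EhrG

/-- The indices of the coordinates `w` (`none`), `y` (`some none`), `v e` (`some (some e)`). -/
abbrev JJ (n : ℕ) : Type := Option (Option (Fin (n ^ 2 - 2)))

section
variable {G : Type} [Fintype G] {n : ℕ}

/-- The coordinate `w`. -/
def wC (p : G ⊕ JJ n → ℝ) : ℝ := p (Sum.inr none)

/-- The coordinate `y`. -/
def yC (p : G ⊕ JJ n → ℝ) : ℝ := p (Sum.inr (some none))

/-- The coordinates `u x`. -/
def uC (p : G ⊕ JJ n → ℝ) (x : G) : ℝ := p (Sum.inl x)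

/-- The coordinates `v e`. -/
def vC (p : G ⊕ JJ n → ℝ) (e : Fin (n ^ 2 - 2)) : ℝ := p (Sum.inr (some (some e)))

/-- The inequalities of `mP`. -/
def Ineq (m : ℝ) (p : G ⊕ JJ n → ℝ) : Prop :=
  0 ≤ wC p ∧ (∀ x, 0 ≤ wC p + n * uC p x) ∧ (∀ e, 0 ≤ wC p + n * vC p e) ∧
  0 ≤ wC p + n * (m - ((n + 1) * wC p + ∑ x, uC p x + ∑ e, vC p e)) ∧
  0 ≤ yC p ∧ yC p ≤ wC p + ∑ x, uC p x

variable (G n) in
/-- The polytope. -/
def Pol : Set (G ⊕ JJ n → ℝ) := {p | Ineq 1 p}

theorem wC_smul (c : ℝ) (p : G ⊕ JJ n → ℝ) : wC (c • p) = c * wC p := rfl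
theorem yC_smul (c : ℝ) (p : G ⊕ JJ n → ℝ) : yC (c • p) = c * yC p := rfl
theorem uC_smul (c : ℝ) (p : G ⊕ JJ n → ℝ) (x : G) : uC (c • p) x = c * uC p x := rfl
theorem vC_smul (c : ℝ) (p : G ⊕ JJ n → ℝ) (e) : vC (c • p) e = c * vC p e := rfl
theorem wC_add (p q : G ⊕ JJ n → ℝ) : wC (p + q) = wC p + wC q := rfl
theorem yC_add (p q : G ⊕ JJ n → ℝ) : yC (p + q) = yC p + yC q := rfl
theorem uC_add (p q : G ⊕ JJ n → ℝ) (x : G) : uC (p + q) x = uC p x + uC q x := rfl
theorem vC_add (p q : G ⊕ JJ n → ℝ) (e) : vC (p + q) e = vC p e + vC q e := rfl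

theorem ineq_comb {a b ma mb : ℝ} {p q : G ⊕ JJ n → ℝ} (ha : 0 ≤ a) (hb : 0 ≤ b)
    (hp : Ineq ma p) (hq : Ineq mb q) : Ineq (a * ma + b * mb) (a • p + b • q) := by
  obtain ⟨p1, p2, p3, p4, p5, p6⟩ := hp
  obtain ⟨q1, q2, q3, q4, q5, q6⟩ := hq
  have key : ∀ u v : ℝ, 0 ≤ u → 0 ≤ v → 0 ≤ a * u + b * v := fun u v hu hv =>
    add_nonneg (mul_nonneg ha hu) (mul_nonneg hb hv)
  unfold Ineq
  simp only [wC_add, yC_add, uC_add, vC_add, wC_smul, yC_smul, uC_smul, vC_smul,
    Finset.sum_add_distrib, ← Finset.mul_sum]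
  refine ⟨key _ _ p1 q1, fun x => ?_, fun e => ?_, ?_, key _ _ p5 q5, ?_⟩
  · linarith [key _ _ (p2 x) (q2 x)]
  · linarith [key _ _ (p3 e) (q3 e)]
  · linarith [key _ _ p4 q4]
  · linarith [key _ _ (sub_nonneg.mpr p6) (sub_nonneg.mpr q6)]

theorem ineq_smul {a m : ℝ} {p : G ⊕ JJ n → ℝ} (ha : 0 ≤ a) (hp : Ineq m p) :
    Ineq (a * m) (a • p) := by
  have h := ineq_comb ha le_rfl hp hp
  simpa using h

theorem mem_smul_Pol {m : ℝ} (hm : 0 < m) (p : G ⊕ JJ n → ℝ) : p ∈ m • Pol G n ↔ Ineq m p := by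
  constructor
  · rintro ⟨q, hq, rfl⟩
    have := ineq_smul hm.le hq
    rwa [mul_one] at this
  · intro h
    refine ⟨m⁻¹ • p, ?_, ?_⟩
    · have := ineq_smul (inv_nonneg.mpr hm.le) h
      rwa [inv_mul_cancel₀ hm.ne'] at this
    · change m • (m⁻¹ • p) = p
      rw [smul_smul, mul_inv_cancel₀ hm.ne', one_smul]

theorem convex_Pol : Convex ℝ (Pol G n) := by
  intro p hp q hq a b ha hb hab
  have := ineq_comb ha hb hp hq
  rw [mul_one, mul_one, hab] at this
  exact this

end

/-! ### The vertices -/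

section
variable {G : Type} [Fintype G] [DecidableEq G] {n : ℕ}

variable (G n) in
/-- The indices of the vertices. -/
abbrev VI : Type := (G × Bool) ⊕ Option (Option (Fin (n ^ 2 - 2)))

/-- The vertices (integer vectors). -/
def vertZ : VI G n → (G ⊕ JJ n) → ℤ
  | Sum.inl (x, b) => fun i => match i with
    | Sum.inl x' => if x' = x then 1 else 0
    | Sum.inr none => 0
    | Sum.inr (some none) => if b then 1 else 0
    | Sum.inr (some (some _)) => 0
  | Sum.inr none => fun i => match i with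
    | Sum.inl _ => -1
    | Sum.inr none => n
    | Sum.inr (some none) => 0
    | Sum.inr (some (some _)) => -1
  | Sum.inr (some none) => fun _ => 0
  | Sum.inr (some (some e)) => fun i => match i with
    | Sum.inl _ => 0
    | Sum.inr none => 0
    | Sum.inr (some none) => 0
    | Sum.inr (some (some e')) => if e' = e then 1 else 0

/-- The vertices. -/
def vert (k : VI G n) (i : G ⊕ JJ n) : ℝ := (vertZ k i : ℝ)

theorem cast_card (h2 : 2 ≤ n) : ((n ^ 2 - 2 : ℕ) : ℝ) = (n : ℝ) ^ 2 - 2 := by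
  have : 2 ≤ n ^ 2 := by nlinarith
  push_cast [this]
  ring

theorem vert_mem (hn : Fintype.card G = n) (h2 : 2 ≤ n) (k : VI G n) : vert k ∈ Pol G n := by
  have hn0 : (0 : ℝ) ≤ n := Nat.cast_nonneg n
  rcases k with ⟨x, b⟩ | _ | _ | e
  · refine ⟨?_, fun x' => ?_, fun e => ?_, ?_, ?_, ?_⟩
    · simp [wC, vert, vertZ]
    · simp only [wC, uC, vert, vertZ]
      split_ifs <;> simp
    · simp [wC, vC, vert, vertZ]
    · simp [wC, uC, vC, vert, vertZ]
    · simp only [yC, vert, vertZ]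
      split_ifs <;> simp
    · simp only [wC, yC, uC, vert, vertZ]
      split_ifs <;> simp
  · refine ⟨?_, fun x' => ?_, fun e => ?_, ?_, ?_, ?_⟩
    · simp [wC, vert, vertZ]
    · simp [wC, uC, vert, vertZ]
    · simp [wC, vC, vert, vertZ]
    · simp only [wC, uC, vC, vert, vertZ, Finset.sum_const, Finset.card_univ, hn,
        Fintype.card_fin, nsmul_eq_mul, cast_card h2]
      push_cast
      nlinarith
    · simp [yC, vert, vertZ]
    · simp [wC, yC, uC, vert, vertZ, hn]
  · refine ⟨?_, fun x' => ?_, fun e => ?_, ?_, ?_, ?_⟩ <;>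
      simp [wC, yC, uC, vC, vert, vertZ]
  · refine ⟨?_, fun x' => ?_, fun e' => ?_, ?_, ?_, ?_⟩
    · simp [wC, vert, vertZ]
    · simp [wC, uC, vert, vertZ]
    · simp only [wC, vC, vert, vertZ]
      split_ifs <;> simp
    · simp [wC, uC, vC, vert, vertZ]
    · simp [yC, vert, vertZ]
    · simp [wC, yC, uC, vert, vertZ]

theorem mem_hull_of_weights (p : G ⊕ JJ n → ℝ) (c : VI G n → ℝ) (h0 : ∀ k, 0 ≤ c k)
    (h1 : ∑ k, c k = 1) (h : ∑ k, c k • vert k = p) : p ∈ convexHull ℝ (Set.range (vert (G := G) (n := n))) := by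
  rw [← h]
  exact (convex_convexHull ℝ _).sum_mem (fun k _ => h0 k) h1
    (fun k _ => subset_convexHull ℝ _ ⟨k, rfl⟩)

/-- The weights of the vertices. -/
def wt (p : G ⊕ JJ n → ℝ) : VI G n → ℝ
  | Sum.inl (x, true) => (wC p + n * uC p x) / n * (yC p / (wC p + ∑ x, uC p x))
  | Sum.inl (x, false) => (wC p + n * uC p x) / n * (1 - yC p / (wC p + ∑ x, uC p x))
  | Sum.inr none => wC p / n
  | Sum.inr (some none) =>
    (wC p + n * (1 - ((n + 1) * wC p + ∑ x, uC p x + ∑ e, vC p e))) / n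
  | Sum.inr (some (some e)) => (wC p + n * vC p e) / n

theorem sum_wt (hn : Fintype.card G = n) (h2 : 2 ≤ n) (p : G ⊕ JJ n → ℝ) :
    ∑ k, wt p k = 1 := by
  have hn0 : (n : ℝ) ≠ 0 := by
    have : 0 < n := by omega
    exact_mod_cast this.ne'
  rw [Fintype.sum_sum_type, Fintype.sum_prod_type, Fintype.sum_option, Fintype.sum_option]
  simp only [Fintype.sum_bool, wt]
  have e1 : ∀ x : G, (wC p + n * uC p x) / n * (yC p / (wC p + ∑ x, uC p x)) +
      (wC p + n * uC p x) / n * (1 - yC p / (wC p + ∑ x, uC p x)) = wC p / n + uC p x := by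
    intro x
    field_simp
    ring
  have e2 : ∀ e : Fin (n ^ 2 - 2), (wC p + n * vC p e) / n = wC p / n + vC p e := by
    intro e
    field_simp
  simp only [e1, e2, Finset.sum_add_distrib, Finset.sum_const, Finset.card_univ, hn,
    Fintype.card_fin, nsmul_eq_mul, cast_card h2]
  field_simp
  ring

theorem comb_wt (hn : Fintype.card G = n) (h2 : 2 ≤ n) (p : G ⊕ JJ n → ℝ) (hp : p ∈ Pol G n) :
    ∑ k, wt p k • vert k = p := by
  have hn0 : (n : ℝ) ≠ 0 := by
    have : 0 < n := by omega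
    exact_mod_cast this.ne'
  obtain ⟨h1, h2', h3, h4, h5, h6⟩ := hp
  ext i
  rw [Finset.sum_apply, Fintype.sum_sum_type, Fintype.sum_prod_type, Fintype.sum_option,
    Fintype.sum_option]
  simp only [Fintype.sum_bool, Pi.smul_apply, smul_eq_mul]
  rcases i with x | _ | _ | e
  · simp only [vert, vertZ, wt]
    have e1 : ∀ x' : G, (wC p + n * uC p x') / n * (yC p / (wC p + ∑ x, uC p x)) *
        ((if x = x' then (1 : ℤ) else 0 : ℤ) : ℝ) +
        (wC p + n * uC p x') / n * (1 - yC p / (wC p + ∑ x, uC p x)) *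
        ((if x = x' then (1 : ℤ) else 0 : ℤ) : ℝ) = if x = x' then wC p / n + uC p x' else 0 := by
      intro x'
      split_ifs
      · push_cast
        field_simp
        ring
      · simp
    simp only [e1, Finset.sum_ite_eq, Finset.mem_univ, if_true]
    simp [uC]
  · simp only [vert, vertZ, wt]
    simp [wC]
    field_simp
  · simp only [vert, vertZ, wt]
    simp
    rw [← Finset.sum_mul]
    have e2 : ∑ i : G, (wC p + n * uC p i) / n = wC p + ∑ x, uC p x := by
      rw [← Finset.sum_div, Finset.sum_add_distrib, ← Finset.mul_sum, Finset.sum_const,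
        Finset.card_univ, hn, nsmul_eq_mul]
      field_simp
    rw [e2]
    by_cases hs : wC p + ∑ x, uC p x = 0
    · rw [hs] at h6 ⊢
      have : yC p = 0 := le_antisymm h6 h5
      simp only [zero_mul]
      exact this.symm
    · rw [mul_div_cancel₀ _ hs]
      rfl
  · simp only [vert, vertZ, wt]
    simp [vC]
    field_simp
    ring

theorem Pol_eq (hn : Fintype.card G = n) (h2 : 2 ≤ n) :
    Pol G n = convexHull ℝ (Set.range (vert (G := G) (n := n))) := by
  apply Set.Subset.antisymm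
  · intro p hp
    refine mem_hull_of_weights p (wt p) ?_ (sum_wt hn h2 p) (comb_wt hn h2 p hp)
    obtain ⟨h1, h2', h3, h4, h5, h6⟩ := hp
    have hn0 : (0 : ℝ) ≤ n := Nat.cast_nonneg n
    have hs : 0 ≤ wC p + ∑ x, uC p x := h5.trans h6
    rintro (⟨x, _ | _⟩ | _ | _ | e)
    · refine mul_nonneg (div_nonneg (h2' x) hn0) (sub_nonneg.mpr ?_)
      exact div_le_one_of_le₀ h6 hs
    · exact mul_nonneg (div_nonneg (h2' x) hn0) (div_nonneg h5 hs)
    · exact div_nonneg h1 hn0
    · exact div_nonneg h4 hn0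
    · exact div_nonneg (h3 e) hn0
  · apply convexHull_min _ convex_Pol
    rintro _ ⟨k, rfl⟩
    exact vert_mem hn h2 k

end

end Run7.h611.EhrG
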