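import Pool.Agent.Run7.h611.EhrG.Count2

/-!
# The equivariant H*-series of the polytope of a group
-/

open scoped Pointwise

set_option linter.unusedSectionVars false

noncomputable section

namespace Run7.h611.EhrG

open Finset PowerSeries

theorem SS_mul (o : ℕ) (ho : 0 < o) : SS o * (1 - X ^ o) = 1 := by
  ext i
  rw [mul_sub, mul_one, map_sub, coeff_mul_X_pow', coeff_one]
  simp only [SS, coeff_mk]
  by_cases hi : i = 0
  · subst hi
    simp
    intro h
    omega
  · rw [if_neg hi]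
    by_cases h : o ≤ i
    · rw [if_pos h]
      have : o ∣ i - o ↔ o ∣ i := by
        constructor
        · intro hd
          have := Nat.dvd_add hd (dvd_refl o)
          rwa [Nat.sub_add_cancel h] at this
        · intro hd
          exact Nat.dvd_sub hd (dvd_refl o)
      rw [if_congr this rfl rfl, sub_self]
    · rw [if_neg h, if_neg, sub_zero]
      intro hd
      exact h (Nat.le_of_dvd (Nat.pos_of_ne_zero hi) hd)

theorem deriv_SS (o : ℕ) (ho : 0 < o) :
    X * (derivative (R := ℝ) (SS o)) * (1 - X ^ o) = (o : PowerSeries ℝ) * X ^ o * SS o := by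
  have h := congrArg (derivative (R := ℝ)) (SS_mul o ho)
  rw [Derivation.leibniz, map_sub, Derivation.map_one_eq_zero, Derivation.leibniz_pow,
    derivative_X] at h
  simp only [smul_eq_mul, nsmul_eq_mul, mul_one, zero_sub, mul_neg] at h
  have e : (X : PowerSeries ℝ) * X ^ (o - 1) = X ^ o := by
    rw [← pow_succ', Nat.sub_add_cancel ho]
  calc X * (derivative (R := ℝ) (SS o)) * (1 - X ^ o)
      = X * (-(SS o * ((o : PowerSeries ℝ) * X ^ (o - 1))) +
          (1 - X ^ o) * derivative (R := ℝ) (SS o)) +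
          (o : PowerSeries ℝ) * (X * X ^ (o - 1)) * SS o := by ring
    _ = (o : PowerSeries ℝ) * X ^ o * SS o := by
      rw [h, e, mul_zero, zero_add]

theorem deriv_pow (o q : ℕ) (ho : 0 < o) (hq : 0 < q) :
    X * (derivative (R := ℝ) (SS o ^ q)) * (1 - X ^ o) =
      ((o * q : ℕ) : PowerSeries ℝ) * X ^ o * SS o ^ q := by
  rw [Derivation.leibniz_pow]
  simp only [smul_eq_mul, nsmul_eq_mul]
  have e : SS o ^ (q - 1) * SS o = SS o ^ q := by
    rw [← pow_succ, Nat.sub_add_cancel hq]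
  calc X * ((q : PowerSeries ℝ) * (SS o ^ (q - 1) * derivative (R := ℝ) (SS o))) * (1 - X ^ o)
      = (q : PowerSeries ℝ) * SS o ^ (q - 1) *
          (X * derivative (R := ℝ) (SS o) * (1 - X ^ o)) := by ring
    _ = ((o * q : ℕ) : PowerSeries ℝ) * X ^ o * SS o ^ q := by
      rw [deriv_SS o ho, ← e]
      push_cast
      ring

variable {G : Type} [Group G] [Fintype G] [DecidableEq G] {n : ℕ}

theorem gf_FY (g : G) (k : ℕ) : gf (FY g k) =
    ((k + 1 : ℕ) : PowerSeries ℝ) * SS (orderOf g) ^ Fintype.card (Qt g) +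
      X * derivative (R := ℝ) (SS (orderOf g) ^ Fintype.card (Qt g)) := by
  rw [← gf_FA]
  ext j
  have h1 : ((k + 1 : ℕ) : PowerSeries ℝ) = C ((k + 1 : ℕ) : ℝ) := (map_natCast _ _).symm
  rw [map_add, h1, coeff_C_mul, gf, coeff_mk, FY, Finset.card_product, Finset.card_range]
  rcases j with _ | j
  · rw [coeff_zero_X_mul]
    simp [gf]
    ring
  · rw [coeff_succ_X_mul, coeff_derivative]
    simp only [gf, coeff_mk]
    push_cast
    ring

theorem gfY_mul (g : G) (k : ℕ) (hn : Fintype.card G = n) :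
    gf (FY g k) * (1 - X ^ orderOf g) ^ Fintype.card (Qt g) * (1 - X ^ orderOf g) =
      ((k + 1 : ℕ) : PowerSeries ℝ) * (1 - X ^ orderOf g) + (n : PowerSeries ℝ) * X ^ orderOf g := by
  have hq : 0 < Fintype.card (Qt g) := Fintype.card_pos
  have ho := orderOf_pos g
  have h1 : (SS (orderOf g) * (1 - X ^ orderOf g)) ^ Fintype.card (Qt g) = 1 := by
    rw [SS_mul _ ho, one_pow]
  rw [mul_pow] at h1
  have h2 := deriv_pow (orderOf g) (Fintype.card (Qt g)) ho hq
  rw [← card_eq, hn] at h2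
  rw [gf_FY]
  linear_combination (((k + 1 : ℕ) : PowerSeries ℝ) * (1 - X ^ orderOf g) +
    (n : PowerSeries ℝ) * X ^ orderOf g) * h1 + (1 - X ^ orderOf g) ^ Fintype.card (Qt g) * h2

theorem one_mul_one : (mk 1 : PowerSeries ℝ) * (1 - X) = 1 := mk_one_mul_one_sub_eq_one ℝ

theorem card_Par_zero (h2 : 2 ≤ n) (g : G) : (Par n g 0).card = 1 := by
  have h := congrArg (coeff 0) (gf_Par (n := n) g)
  rw [gf, coeff_mk, map_sum, Finset.sum_eq_single 0] at h
  · rw [mul_zero, pow_zero, one_mul, gf_FB, gf_FY, coeff_mul] at h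
    simp [SS, coeff_zero_eq_constantCoeff] at h
    exact_mod_cast h
  · intro k _ hk
    rw [coeff_X_pow_mul', if_neg]
    have : 0 < (n + 1) * k := Nat.mul_pos (by omega) (Nat.pos_of_ne_zero hk)
    omega
  · intro h
    exact absurd (Finset.mem_range.mpr (by omega)) h

theorem mk_chi (hn : Fintype.card G = n) (h2 : 2 ≤ n) (g : G) :
    (mk fun m => ((AG G n hn h2).chi m g : ℝ)) = gf (Par n g) := by
  ext m
  rw [coeff_mk, gf, coeff_mk, InvariantPolytope.chi]
  split_ifs with h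
  · rw [h, card_Par_zero h2]
  · rw [ncard_fixedPts hn h2 g m (Nat.pos_of_ne_zero h)]

theorem hStarSeries_mul (hn : Fintype.card G = n) (h2 : 2 ≤ n) (g : G) :
    (AG G n hn h2).hStarSeries g * (1 - X ^ orderOf g) =
      (1 - X) * ∑ k ∈ range n, X ^ ((n + 1) * k) *
        (((k + 1 : ℕ) : PowerSeries ℝ) * (1 - X ^ orderOf g) +
          (n : PowerSeries ℝ) * X ^ orderOf g) := by
  rw [InvariantPolytope.hStarSeries, mk_chi, detOneSub_AG, gf_Par, gf_FB, card_JJ h2]
  have e : ((((1 : Polynomial ℝ) - Polynomial.X) *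
      ((1 - Polynomial.X ^ orderOf g) ^ Fintype.card (Qt g) *
        (1 - Polynomial.X) ^ (n ^ 2)) : Polynomial ℝ) : PowerSeries ℝ) =
      (1 - X) * ((1 - X ^ orderOf g) ^ Fintype.card (Qt g) * (1 - X) ^ (n ^ 2)) := by
    push_cast
    rfl
  rw [e]
  have h1 : ((mk 1 : PowerSeries ℝ)) ^ (n ^ 2) * (1 - X) ^ (n ^ 2) = 1 := by
    rw [← mul_pow, one_mul_one, one_pow]
  rw [Finset.sum_mul, Finset.sum_mul, Finset.mul_sum]
  refine Finset.sum_congr rfl fun k _ => ?_
  rw [← gfY_mul g k hn]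
  calc X ^ ((n + 1) * k) * (gf (FY g k) * (mk 1 : PowerSeries ℝ) ^ (n ^ 2)) *
      ((1 - X) * ((1 - X ^ orderOf g) ^ Fintype.card (Qt g) * (1 - X) ^ (n ^ 2))) *
      (1 - X ^ orderOf g)
      = ((mk 1 : PowerSeries ℝ) ^ (n ^ 2) * (1 - X) ^ (n ^ 2)) * ((1 - X) * (X ^ ((n + 1) * k) *
        (gf (FY g k) * (1 - X ^ orderOf g) ^ Fintype.card (Qt g) * (1 - X ^ orderOf g)))) := by
        ring
    _ = _ := by rw [h1, one_mul]

end Run7.h611.EhrG
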